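import Pool.Agent.MP_ca1109_lc.Pt.Defs

/-!
# Product tests with heavy blocks, thresholds over blocks: definitions

* `Ev K J I A`: the events `A j`, `j ∈ J`, depend on the blocks `I j`, total probability at most `K`.
* `Dp J I A Φ`: `Φ` is bounded by one and depends only on the blocks at which `A j` happens.
* `PFools N K ε X`: `X` fools all `Φ * ∏ j, f j`.
* `BC J I A B f`: combinations of such functions with coefficients of total size at most `B`.
* `bst J g x = ∑ j ∈ J, g j x`; `vs J g D`: the symmetrised mass at scale `D`.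
-/

namespace Pool.Agent.MP_ca1109_lc.Ph

open Finset Pool.Agent.H66 Pool.Agent.MP_ca1109_lc.Mpg Pool.Agent.MP_ca1109_lc.Agp
  Pool.Agent.MP_ca1109_lc.Xp Pool.Agent.MP_ca1109_lc.Pt
open Pool.Agent.MP_ca1109_lc.Dnf (Cube ch one On)

variable {n : ℕ}

/-- The events `A j` depend on the blocks `I j` and have total probability at most `K`. -/
structure Ev (K : ℝ) (J : Finset (Fin n)) (I : Fin n → Finset (Fin n))
    (A : Fin n → Cube n → Prop) : Prop where
  on : ∀ j ∈ J, On (I j) (A j)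
  mass : ∑ j ∈ J, (avg fun x => one (A j x)) ≤ K

/-- `Φ` is bounded by one and depends only on the blocks at which the events happen. -/
structure Dp (J : Finset (Fin n)) (I : Fin n → Finset (Fin n)) (A : Fin n → Cube n → Prop)
    (Φ : Cube n → ℂ) : Prop where
  le : ∀ x, ‖Φ x‖ ≤ 1
  dep : ∀ x y : Cube n, (∀ j ∈ J, A j x ∨ A j y → ∀ i ∈ I j, x i = y i) → Φ x = Φ y

/-- The string `X ω` fools, with error at most `ε`, all functions of the heavy blocks times products
of bounded functions of the blocks. -/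
def PFools (N : ℕ) (K ε : ℝ) {Ω : Type*} [Fintype Ω] (X : Ω → Cube n) : Prop :=
  ∀ (J : Finset (Fin n)) (I : Fin n → Finset (Fin n)) (f : Fin n → Cube n → ℂ)
    (A : Fin n → Cube n → Prop) (Φ : Cube n → ℂ), Blk N J I f → Ev K J I A → Dp J I A Φ →
    ‖av (fun ω => Φ (X ω) * ∏ j ∈ J, f j (X ω)) - av (fun x => Φ x * ∏ j ∈ J, f j x)‖ ≤ ε

/-- The functions `f j` are bounded by one and depend on the blocks `I j`. -/
def Bd1 (J : Finset (Fin n)) (I : Fin n → Finset (Fin n)) (f : Fin n → Cube n → ℂ) : Prop :=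
  ∀ j ∈ J, On (I j) (f j) ∧ ∀ x, ‖f j x‖ ≤ 1

/-- Combinations with coefficients of total size at most `B`. -/
def BC (J : Finset (Fin n)) (I : Fin n → Finset (Fin n)) (A : Fin n → Cube n → Prop) (B : ℝ)
    (f : Cube n → ℂ) : Prop :=
  ∃ (ι : Type) (_ : Fintype ι) (c : ι → ℂ) (Φ : ι → Cube n → ℂ) (g : ι → Fin n → Cube n → ℂ),
    (∀ i, Dp J I A (Φ i)) ∧ (∀ i, Bd1 J I (g i)) ∧ (∑ i, ‖c i‖ ≤ B) ∧
      ∀ x, f x = ∑ i, c i * (Φ i x * ∏ j ∈ J, g i j x)

/-- Disjoint blocks of bits, `2 ^ |I j| ≤ N`. -/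
structure Dj (N : ℕ) (J : Finset (Fin n)) (I : Fin n → Finset (Fin n)) : Prop where
  pos : 1 ≤ N
  dj : ∀ i ∈ J, ∀ j ∈ J, i ≠ j → Disjoint (I i) (I j)
  wd : ∀ j ∈ J, 2 ^ (I j).card ≤ N

/-- The real statistic. -/
def bst (J : Finset (Fin n)) (g : Fin n → Cube n → ℝ) (x : Cube n) : ℝ := ∑ j ∈ J, g j x

/-- The symmetrised mass at scale `D`. -/
noncomputable def vs (J : Finset (Fin n)) (g : Fin n → Cube n → ℝ) (D : ℝ) : ℝ :=
  ∑ j ∈ J, avg fun q : Cube n × Cube n => min 1 (((g j q.1 - g j q.2) / D) ^ 2)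

/-- The symmetrised mass at scale `0`. -/
noncomputable def vz (J : Finset (Fin n)) (g : Fin n → Cube n → ℝ) : ℝ :=
  ∑ j ∈ J, avg fun q : Cube n × Cube n => one (g j q.1 ≠ g j q.2)

/-- The phases. -/
noncomputable def be (t : ℝ) (S : ℝ) : ℂ := Complex.exp ((t * S : ℝ) * Complex.I)

end Pool.Agent.MP_ca1109_lc.Ph
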