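import Pool.Agent.MP_ca1109_lc.Ph.CHF
import Pool.Agent.MP_ca1109_lc.Xh.AN

/-!
# Anticoncentration of sums over disjoint blocks
-/

namespace Pool.Agent.MP_ca1109_lc.Ph

open Finset Pool.Agent.H66 Pool.Agent.MP_ca1109_lc.Mpg Pool.Agent.MP_ca1109_lc.Agp
  Pool.Agent.MP_ca1109_lc.Xp Pool.Agent.MP_ca1109_lc.Pt
open Pool.Agent.MP_ca1109_lc.Dnf (Cube ch one On)

variable {n : ℕ}

theorem ac_sum (J : Finset (Fin n)) (F : Fin n → Cube n × Cube n → ℝ) :
    (∑ m ∈ J ×ˢ (univ : Finset (Cube n × Cube n)),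
      ((Fintype.card (Cube n × Cube n) : ℝ))⁻¹ * F m.1 m.2) =
      ∑ j ∈ J, avg fun q : Cube n × Cube n => F j q := by
  rw [sum_product]
  refine sum_congr rfl fun j _ => ?_
  unfold avg
  rw [← mul_sum, div_eq_inv_mul]

/-- Most phases have large mass, so every distribution which is close to the uniform one for the
phases is spread at scale `D`. -/
theorem banti {ε : ℝ} (hε : 0 < ε) : ∃ K : ℝ, ∀ (n N : ℕ) (J : Finset (Fin n))
    (I : Fin n → Finset (Fin n)), Dj N J I → ∀ g : Fin n → Cube n → ℝ, (∀ j ∈ J, On (I j) (g j)) →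
      ∀ D : ℝ, 0 < D → K ≤ vs J g D →
      ∀ {Ω : Type} [Fintype Ω] [Nonempty Ω] (Y : Ω → Cube n) (ε₀ : ℝ),
        (∀ t : ℝ, ‖(av fun ω => be t (bst J g (Y ω))) - av fun x => be t (bst J g x)‖ ≤ ε₀) →
        ∀ θ : ℝ, (avg fun ω => one (|bst J g (Y ω) - θ| ≤ D)) ≤ ε + 4 * ε₀ := by
  set V₀ : ℝ := 4 * Real.log (16 / ε) with hV₀
  set η : ℝ := min 1 (ε / 512) with hη
  have hη0 : 0 < η := lt_min one_pos (by positivity)
  have hη1 : η ≤ 1 := min_le_left _ _
  have hη2 : η ≤ ε / 512 := min_le_right _ _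
  refine ⟨max 1 (2 * V₀ / η ^ 2), fun n N J I hJ g hg D hD hK Ω _ _ Y ε₀ hc θ => ?_⟩
  have hK1 : 1 ≤ vs J g D := (le_max_left _ _).trans hK
  have hK2 : 2 * V₀ / η ^ 2 ≤ vs J g D := (le_max_right _ _).trans hK
  have hε₀ : 0 ≤ ε₀ := (norm_nonneg _).trans (hc 0)
  have hvs : (∑ m ∈ J ×ˢ (univ : Finset (Cube n × Cube n)),
      ((Fintype.card (Cube n × Cube n) : ℝ))⁻¹ *
        min 1 (((g m.1 m.2.1 - g m.1 m.2.2) / D) ^ 2)) = vs J g D :=
    ac_sum J fun j q => min 1 (((g j q.1 - g j q.2) / D) ^ 2)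
  have h := Xh.anticonc (J ×ˢ (univ : Finset (Cube n × Cube n)))
    (fun _ => ((Fintype.card (Cube n × Cube n) : ℝ))⁻¹) (fun m => g m.1 m.2.1 - g m.1 m.2.2)
    (fun m _ => by positivity) (D := D) (η := η) (V₀ := V₀) (ε := ε / 16 + ε₀) hD hη0 hη1
    (by positivity) (by rw [hvs]; linarith) (by
      rw [hvs]
      rw [div_le_iff₀ (by positivity)] at hK2
      linarith) (fun ω => bst J g (Y ω)) θ (by
      intro t ht
      have h0 : V₀ ≤ ∑ j ∈ J, avg fun q : Cube n × Cube n =>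
          ‖1 - be t (g j q.1 - g j q.2)‖ ^ 2 :=
        ht.trans (le_of_eq (ac_sum J fun j q => ‖1 - be t (g j q.1 - g j q.2)‖ ^ 2))
      have h1 : ‖av fun x => be t (bst J g x)‖ ≤ ε / 16 := by
        refine (chf hJ hg t).trans ?_
        refine (Real.exp_le_exp.2 (show -(1 / 4) * (∑ j ∈ J, avg fun q : Cube n × Cube n =>
          ‖1 - be t (g j q.1 - g j q.2)‖ ^ 2) ≤ Real.log (ε / 16) by
            have e1 : Real.log (16 / ε) = -Real.log (ε / 16) := by
              rw [← Real.log_inv, inv_div]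
            rw [hV₀, e1] at h0
            linarith)).trans ?_
        rw [Real.exp_log (by positivity)]
      have h3 := norm_add_le ((av fun ω => be t (bst J g (Y ω))) - av fun x => be t (bst J g x))
        (av fun x => be t (bst J g x))
      rw [sub_add_cancel] at h3
      have h4 := hc t
      have h5 : ‖av fun ω => be t (bst J g (Y ω))‖ ≤ ε / 16 + ε₀ := by linarith
      exact h5)
  linarith

end Pool.Agent.MP_ca1109_lc.Ph
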