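import Pool.Agent.MP_ca1109_lc.Ph.Defs

/-!
# The scale and the centre of a gate
-/

namespace Pool.Agent.MP_ca1109_lc.Ph

open Finset Pool.Agent.H66 Pool.Agent.MP_ca1109_lc.Mpg Pool.Agent.MP_ca1109_lc.Agp
  Pool.Agent.MP_ca1109_lc.Xp Pool.Agent.MP_ca1109_lc.Pt
open Pool.Agent.MP_ca1109_lc.Dnf (Cube ch one On one_true one_false)

variable {n : ℕ}

/-! ## The scale -/

theorem bcc_half {ι : Type*} (M : Finset ι) (p u : ι → ℝ) (hp : ∀ m ∈ M, 0 ≤ p m) (D : ℝ) :
    (∑ m ∈ M, p m * min 1 ((u m / (D / 2)) ^ 2)) ≤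
      4 * ∑ m ∈ M, p m * min 1 ((u m / D) ^ 2) := by
  rw [mul_sum]
  refine sum_le_sum fun m hm => ?_
  have h1 : (u m / (D / 2)) ^ 2 = 4 * (u m / D) ^ 2 := by
    rw [div_div_eq_mul_div]
    ring
  rw [h1]
  have h2 : min 1 (4 * (u m / D) ^ 2) ≤ 4 * min 1 ((u m / D) ^ 2) := by
    rcases le_total 1 ((u m / D) ^ 2) with h | h
    · rw [min_eq_left h]
      exact (min_le_left _ _).trans (by norm_num)
    · rw [min_eq_right h]
      exact min_le_right _ _
  have h3 := hp m hm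
  nlinarith [mul_le_mul_of_nonneg_left h2 h3]

theorem bcc_scale {ι : Type*} (M : Finset ι) (p u : ι → ℝ) (hp : ∀ m ∈ M, 0 ≤ p m) {K : ℝ}
    (hK : 0 < K) (h : K < ∑ m ∈ M, p m * one (u m ≠ 0)) :
    ∃ D : ℝ, 0 < D ∧ (∑ m ∈ M, p m * min 1 ((u m / D) ^ 2)) ≤ K ∧
      K ≤ 4 * ∑ m ∈ M, p m * min 1 ((u m / D) ^ 2) := by
  classical
  set V : ℝ → ℝ := fun D => ∑ m ∈ M, p m * min 1 ((u m / D) ^ 2) with hV
  set B : ℝ := ∑ m ∈ M, p m * (u m) ^ 2 with hB
  have hB0 : 0 ≤ B := sum_nonneg fun m hm => mul_nonneg (hp m hm) (sq_nonneg _)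
  set D₀ : ℝ := Real.sqrt (B / K) + 1 with hD
  have hD0 : 0 < D₀ := by
    have := Real.sqrt_nonneg (B / K)
    linarith
  have hDB : B ≤ K * D₀ ^ 2 := by
    have h1 : B / K ≤ D₀ ^ 2 := by
      have h2 := Real.sqrt_nonneg (B / K)
      have h3 := Real.sq_sqrt (div_nonneg hB0 hK.le)
      nlinarith
    rw [div_le_iff₀ hK] at h1
    linarith
  have hf0 : V (D₀ / 2 ^ 0) ≤ K := by
    rw [pow_zero, div_one]
    have h1 : V D₀ ≤ B / D₀ ^ 2 := by
      simp only [hV]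
      rw [hB, sum_div]
      refine sum_le_sum fun m hm => ?_
      rw [mul_div_assoc]
      refine mul_le_mul_of_nonneg_left ?_ (hp m hm)
      rw [← div_pow]
      exact min_le_right _ _
    refine h1.trans ?_
    rw [div_le_iff₀ (by positivity)]
    exact hDB
  have hex : ∃ j : ℕ, K < V (D₀ / 2 ^ j) := by
    obtain ⟨c, hc0, hc⟩ : ∃ c : ℝ, 0 < c ∧ ∀ m ∈ M, u m ≠ 0 → c ≤ |u m| := by
      rcases (M.filter fun m => u m ≠ 0).eq_empty_or_nonempty with hM | hM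
      · refine ⟨1, one_pos, fun m hm hu => ?_⟩
        have : m ∈ M.filter fun m => u m ≠ 0 := mem_filter.2 ⟨hm, hu⟩
        rw [hM] at this
        simp at this
      · refine ⟨(M.filter fun m => u m ≠ 0).inf' hM fun m => |u m|, ?_,
          fun m hm hu => inf'_le _ (mem_filter.2 ⟨hm, hu⟩)⟩
        rw [lt_inf'_iff]
        exact fun m hm => abs_pos.2 (mem_filter.1 hm).2
    obtain ⟨j, hj⟩ := exists_pow_lt_of_lt_one (div_pos hc0 hD0) (by norm_num : (1 / 2 : ℝ) < 1)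
    refine ⟨j, h.trans_le ?_⟩
    have hjc : D₀ / 2 ^ j ≤ c := by
      have h1 : D₀ / 2 ^ j = D₀ * (1 / 2) ^ j := by
        rw [div_pow, one_pow]
        ring
      rw [h1]
      have h2 := (lt_div_iff₀ hD0).1 hj
      linarith [mul_comm D₀ ((1 / 2 : ℝ) ^ j)]
    have hpos : 0 < D₀ / 2 ^ j := by positivity
    simp only [hV]
    refine sum_le_sum fun m hm => ?_
    refine mul_le_mul_of_nonneg_left ?_ (hp m hm)
    by_cases hu : u m ≠ 0
    · rw [one_true hu]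
      have h3 : 1 ≤ (u m / (D₀ / 2 ^ j)) ^ 2 := by
        rw [← sq_abs, abs_div, abs_of_pos hpos]
        have h4 : 1 ≤ |u m| / (D₀ / 2 ^ j) := by
          rw [le_div_iff₀ hpos, one_mul]
          exact hjc.trans (hc m hm hu)
        nlinarith
      rw [min_eq_left h3]
    · rw [one_false hu]
      exact le_min zero_le_one (sq_nonneg _)
  have hspec := Nat.find_spec hex
  have hmin := fun {k : ℕ} (hk : k < Nat.find hex) => Nat.find_min hex hk
  obtain ⟨k, hk⟩ : ∃ k, Nat.find hex = k + 1 := by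
    refine Nat.exists_eq_succ_of_ne_zero fun h1 => ?_
    rw [h1] at hspec
    linarith
  refine ⟨D₀ / 2 ^ k, by positivity, not_lt.1 (hmin (by omega)), ?_⟩
  rw [hk] at hspec
  have h5 : D₀ / 2 ^ (k + 1) = D₀ / 2 ^ k / 2 := by
    rw [pow_succ, div_div]
  rw [h5] at hspec
  exact hspec.le.trans (bcc_half M p u hp _)

theorem bcc_sum {α : Type*} [Fintype α] (J : Finset (Fin n)) (F : Fin n → α → ℝ) :
    (∑ j ∈ J, avg (F j)) =
      ∑ m ∈ J ×ˢ (univ : Finset α), (1 / (Fintype.card α : ℝ)) * F m.1 m.2 := by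
  rw [sum_product]
  refine sum_congr rfl fun j _ => ?_
  unfold avg
  rw [← mul_sum, div_eq_mul_inv, one_div, mul_comm]

/-- The choice of the scale. -/
theorem bscale (J : Finset (Fin n)) (g : Fin n → Cube n → ℝ) {K : ℝ} (hK : 0 < K)
    (h : K < vz J g) : ∃ D : ℝ, 0 < D ∧ vs J g D ≤ K ∧ K ≤ 4 * vs J g D := by
  classical
  have h0 : vz J g = ∑ m ∈ J ×ˢ (univ : Finset (Cube n × Cube n)),
      (1 / (Fintype.card (Cube n × Cube n) : ℝ)) * one (g m.1 m.2.1 - g m.1 m.2.2 ≠ 0) := by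
    unfold vz
    rw [bcc_sum]
    refine sum_congr rfl fun m _ => ?_
    simp only [sub_ne_zero]
  have h1 : ∀ D, vs J g D = ∑ m ∈ J ×ˢ (univ : Finset (Cube n × Cube n)),
      (1 / (Fintype.card (Cube n × Cube n) : ℝ)) *
        min 1 (((g m.1 m.2.1 - g m.1 m.2.2) / D) ^ 2) := by
    intro D
    unfold vs
    rw [bcc_sum]
  rw [h0] at h
  obtain ⟨D, hD, ha, hb⟩ := bcc_scale (J ×ˢ (univ : Finset (Cube n × Cube n)))
    (fun _ => 1 / (Fintype.card (Cube n × Cube n) : ℝ)) (fun m => g m.1 m.2.1 - g m.1 m.2.2)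
    (fun m _ => by positivity) hK h
  refine ⟨D, hD, ?_, ?_⟩
  · rw [h1]
    exact ha
  · rw [h1]
    exact hb

/-! ## The centre -/

theorem bcc_avg_prod (F : Cube n → Cube n → ℝ) :
    (avg fun q : Cube n × Cube n => F q.1 q.2) = avg fun y' => avg fun y => F y y' := by
  unfold avg
  rw [Fintype.card_prod, Fintype.sum_prod_type_right, ← sum_div, div_div]
  push_cast
  ring_nf

theorem bcc_exists (F : Cube n → ℝ) : ∃ y, F y ≤ avg F := by
  by_contra h
  push Not at h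
  have h1 : (∑ _y : Cube n, avg F) < ∑ y, F y :=
    sum_lt_sum_of_nonempty univ_nonempty fun y _ => h y
  rw [sum_const, card_univ, nsmul_eq_mul] at h1
  have h2 : (0 : ℝ) < Fintype.card (Cube n) := by exact_mod_cast Fintype.card_pos
  unfold avg at h1
  rw [mul_div_cancel₀ _ h2.ne'] at h1
  exact lt_irrefl _ h1

/-- The centre. -/
theorem centre {g : Cube n → ℝ} (D : ℝ) : ∃ a : ℝ,
    (avg fun y => min 1 (((g y - a) / D) ^ 2)) ≤
      avg fun q : Cube n × Cube n => min 1 (((g q.1 - g q.2) / D) ^ 2) := by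
  obtain ⟨y', hy⟩ := bcc_exists fun y' => avg fun y => min 1 (((g y - g y') / D) ^ 2)
  refine ⟨g y', ?_⟩
  rw [bcc_avg_prod fun y y' => min 1 (((g y - g y') / D) ^ 2)]
  exact hy

theorem centre0 (g : Cube n → ℝ) : ∃ a : ℝ,
    (avg fun y => one (g y ≠ a)) ≤ avg fun q : Cube n × Cube n => one (g q.1 ≠ g q.2) := by
  obtain ⟨y', hy⟩ := bcc_exists fun y' => avg fun y => one (g y ≠ g y')
  refine ⟨g y', ?_⟩
  rw [bcc_avg_prod fun y y' => one (g y ≠ g y')]
  exact hy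

end Pool.Agent.MP_ca1109_lc.Ph
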