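import Pool.Agent.MP_ca1109_lc.Pt.IN
import Pool.Agent.MP_ca1109_lc.Ph.Defs

/-!
# Characteristic functions of block sums
-/

namespace Pool.Agent.MP_ca1109_lc.Ph

open Finset Pool.Agent.H66 Pool.Agent.MP_ca1109_lc.Mpg Pool.Agent.MP_ca1109_lc.Agp
  Pool.Agent.MP_ca1109_lc.Xp Pool.Agent.MP_ca1109_lc.Pt
open Pool.Agent.MP_ca1109_lc.Dnf (Cube ch one On)

variable {n : ℕ}

theorem be_bst (J : Finset (Fin n)) (g : Fin n → Cube n → ℝ) (t : ℝ) (x : Cube n) :
    be t (bst J g x) = ∏ j ∈ J, be t (g j x) := by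
  unfold be bst
  rw [← Complex.exp_sum]
  congr 1
  push_cast
  rw [mul_sum, sum_mul]

/-- The square of the mean is the mean over independent pairs. -/
theorem chf_sq {A : Type*} [Fintype A] (f : A → ℂ) :
    ‖av f‖ ^ 2 = avg fun q : A × A => (f q.1 * (starRingEnd ℂ) (f q.2)).re := by
  have h1 : ‖∑ a, f a‖ ^ 2 = ∑ q : A × A, (f q.1 * (starRingEnd ℂ) (f q.2)).re := by
    rw [Fintype.sum_prod_type, ← Complex.normSq_eq_norm_sq]
    have h2 : ((Complex.normSq (∑ a, f a) : ℝ) : ℂ) =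
        ∑ a, ∑ b, f a * (starRingEnd ℂ) (f b) := by
      rw [← Complex.mul_conj, map_sum, sum_mul_sum]
    have h3 := congrArg Complex.re h2
    rw [Complex.ofReal_re, Complex.re_sum] at h3
    rw [h3]
    exact sum_congr rfl fun a _ => Complex.re_sum _ _
  unfold av avg
  rw [norm_div, Complex.norm_natCast, div_pow, h1, Fintype.card_prod]
  push_cast
  rw [sq]

theorem chf_re (t a b : ℝ) :
    (be t a * (starRingEnd ℂ) (be t b)).re = 1 - 1 / 2 * ‖1 - be t (a - b)‖ ^ 2 := by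
  have h1 : be t a * (starRingEnd ℂ) (be t b) = be t (a - b) := by
    unfold be
    rw [← Complex.exp_conj, ← Complex.exp_add]
    congr 1
    simp only [map_mul, Complex.conj_ofReal, Complex.conj_I]
    push_cast
    ring
  have h2 : ‖be t (a - b)‖ = 1 := by
    unfold be
    exact Complex.norm_exp_ofReal_mul_I _
  rw [h1, ← Complex.normSq_eq_norm_sq]
  have h3 : Complex.normSq (be t (a - b)) = 1 := by rw [Complex.normSq_eq_norm_sq, h2]; norm_num
  rw [Complex.normSq_apply] at h3 ⊢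
  simp only [Complex.sub_re, Complex.sub_im, Complex.one_re, Complex.one_im]
  nlinarith

theorem chf_one {A : Type*} [Fintype A] [Nonempty A] (g : A → ℝ) (t : ℝ) :
    ‖av fun x => be t (g x)‖ ≤
      Real.exp (-(1 / 4) * avg fun q : A × A => ‖1 - be t (g q.1 - g q.2)‖ ^ 2) := by
  set m := avg fun q : A × A => ‖1 - be t (g q.1 - g q.2)‖ ^ 2 with hm
  have h1 : ‖av fun x => be t (g x)‖ ^ 2 = 1 - 1 / 2 * m := by
    rw [chf_sq]
    have h2 : (fun q : A × A => (be t (g q.1) * (starRingEnd ℂ) (be t (g q.2))).re) =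
        fun q => 1 - 1 / 2 * ‖1 - be t (g q.1 - g q.2)‖ ^ 2 := by
      funext q
      exact chf_re t _ _
    rw [h2, hm]
    unfold avg
    rw [sum_sub_distrib, ← mul_sum, sub_div, mul_div_assoc]
    congr 1
    simp
  have h2 : 1 - 1 / 2 * m ≤ Real.exp (-(1 / 4) * m) ^ 2 := by
    rw [← Real.exp_nat_mul]
    have := Real.add_one_le_exp (-(1 / 2) * m)
    calc 1 - 1 / 2 * m = -(1 / 2) * m + 1 := by ring
      _ ≤ Real.exp (-(1 / 2) * m) := this
      _ = _ := by
        congr 1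
        push_cast
        ring
  exact le_of_sq_le_sq (h1.trans_le h2) (Real.exp_pos _).le

theorem chf {N : ℕ} {J : Finset (Fin n)} {I : Fin n → Finset (Fin n)} (h : Dj N J I)
    {g : Fin n → Cube n → ℝ} (hg : ∀ j ∈ J, On (I j) (g j)) (t : ℝ) :
    ‖av fun x => be t (bst J g x)‖ ≤ Real.exp (-(1 / 4) *
      ∑ j ∈ J, avg fun q : Cube n × Cube n => ‖1 - be t (g j q.1 - g j q.2)‖ ^ 2) := by
  have h1 : (fun x => be t (bst J g x)) = fun x => ∏ j ∈ J, be t (g j x) :=
    funext fun x => be_bst J g t x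
  rw [h1, av_prod h.dj (fun j x => be t (g j x)) fun j hj x y hxy => by
    show be t (g j x) = be t (g j y)
    rw [hg j hj x y hxy], norm_prod, mul_sum, Real.exp_sum]
  exact prod_le_prod (fun _ _ => norm_nonneg _) fun j _ => chf_one _ t

end Pool.Agent.MP_ca1109_lc.Ph
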