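import Pool.Agent.MP_ca1109_lc.Ph.UB
import Pool.Agent.MP_ca1109_lc.Pt.SB
import Pool.Agent.MP_ca1109_lc.Pt.SN

/-!
# Row SH: small bias fools heavy product tests of bounded loss
-/

namespace Pool.Agent.MP_ca1109_lc.Ph

open Finset Pool.Agent.H66 Pool.Agent.MP_ca1109_lc.Mpg Pool.Agent.MP_ca1109_lc.Agp
  Pool.Agent.MP_ca1109_lc.Xp Pool.Agent.MP_ca1109_lc.Pt
open Pool.Agent.MP_ca1109_lc.Dnf (Cube ch one On)

variable {n : ℕ} {N : ℕ} {K : ℝ} {J : Finset (Fin n)} {I : Fin n → Finset (Fin n)}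
  {f : Fin n → Cube n → ℂ} {A : Fin n → Cube n → Prop} {Φ : Cube n → ℂ}

/-! ## Averages over the bits in `V` -/

/-- The shift `s`, restricted to `V`. -/
def sv (V : Finset (Fin n)) (s : Cube n) : Cube n := fun i => decide (i ∈ V) && s i

/-- The average over the bits in `V`. -/
noncomputable def ac' (V : Finset (Fin n)) (t : Cube n → ℂ) (x : Cube n) : ℂ :=
  av fun s : Cube n => t (xo x (sv V s))

/-- The average over the bits in `V`. -/
noncomputable def ar (V : Finset (Fin n)) (t : Cube n → ℝ) (x : Cube n) : ℝ :=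
  avg fun s : Cube n => t (xo x (sv V s))

theorem sv_shift {V : Finset (Fin n)} {x y : Cube n} (h : ∀ i ∈ Vᶜ, x i = y i) (s : Cube n) :
    xo x (sv V s) = xo y (sv V (xo s (xo x y))) := by
  funext i
  unfold xo sv
  by_cases hi : i ∈ V
  · simp only [hi, decide_true, Bool.true_and]
    cases x i <;> cases y i <;> cases s i <;> rfl
  · have := h i (by simpa using hi)
    simp [hi, this]

theorem ac_on (V : Finset (Fin n)) (t : Cube n → ℂ) : On Vᶜ (ac' V t) := by
  intro x y h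
  unfold ac'
  have h1 := av_xo (fun s => t (xo y (sv V s))) (xo x y)
  rw [← h1]
  congr 1
  funext s
  rw [sv_shift h]

theorem ar_on (V : Finset (Fin n)) (t : Cube n → ℝ) : On Vᶜ (ar V t) := by
  intro x y h
  unfold ar
  have h1 := avg_xo (fun s => t (xo y (sv V s))) (xo x y)
  rw [← h1]
  congr 1
  funext s
  rw [sv_shift h]

theorem avg_ar (V : Finset (Fin n)) (t : Cube n → ℝ) : avg (ar V t) = avg t := by
  have h1 : avg (ar V t) = avg fun s : Cube n => avg fun x : Cube n => t (xo x (sv V s)) := by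
    unfold ar avg
    simp only [div_eq_mul_inv, sum_mul]
    rw [sum_comm]
  rw [h1]
  have h2 : (fun s : Cube n => avg fun x : Cube n => t (xo x (sv V s))) = fun _ => avg t := by
    funext s
    exact avg_xo t (sv V s)
  rw [h2]
  exact avg_const _

/-- Averages do not increase the spectral norm. -/
theorem sp_av {Ω : Type*} [Fintype Ω] [Nonempty Ω] {B : ℝ} {F : Ω → Cube n → ℂ}
    (h : ∀ ω, Sp B (F ω)) : Sp B fun x => av fun ω => F ω x := by
  have hc : (Fintype.card Ω : ℝ) ≠ 0 := by exact_mod_cast Fintype.card_ne_zero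
  have h1 := (Sp.sum univ (fun _ => B) F fun ω _ => h ω).smul ((1 : ℂ) / (Fintype.card Ω : ℂ))
  refine (h1.mono (le_of_eq ?_)).congr' fun x => ?_
  · rw [sum_const, card_univ, nsmul_eq_mul, norm_div, norm_one, Complex.norm_natCast]
    field_simp
  · unfold av
    rw [div_eq_mul_inv, one_div, mul_comm]

theorem sp_ac (V : Finset (Fin n)) {B : ℝ} {t : Cube n → ℂ} (h : Sp B t) : Sp B (ac' V t) :=
  sp_av fun s => h.xo (sv V s)

theorem ar_ofReal (V : Finset (Fin n)) (t : Cube n → ℝ) (x : Cube n) :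
    ((ar V t x : ℝ) : ℂ) = ac' V (fun y => ((t y : ℝ) : ℂ)) x := by
  unfold ar ac'
  rw [spb_avg_ofReal]

theorem sp_ar (V : Finset (Fin n)) {B : ℝ} {t : Cube n → ℝ}
    (h : Sp B fun x => ((t x : ℝ) : ℂ)) : Sp B fun x => ((ar V t x : ℝ) : ℂ) :=
  (sp_ac V h).congr' (ar_ofReal V t)

/-- The inequality survives the average. -/
theorem ac_close {V : Finset (Fin n)} {g t : Cube n → ℂ} {R : Cube n → ℝ} (hg : On Vᶜ g)
    (h : ∀ x, ‖g x - t x‖ ≤ R x) (x : Cube n) : ‖g x - ac' V t x‖ ≤ ar V R x := by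
  have h1 : ∀ s : Cube n, g (xo x (sv V s)) = g x := fun s => hg _ _ fun i hi => by
    unfold xo sv
    have : i ∉ V := by simpa using hi
    simp [this]
  have h2 : g x - ac' V t x = av fun s : Cube n => g (xo x (sv V s)) - t (xo x (sv V s)) := by
    have h3 : (fun s : Cube n => g (xo x (sv V s)) - t (xo x (sv V s))) =
        fun s => g x - t (xo x (sv V s)) := by
      funext s
      rw [h1 s]
    rw [h3]
    have h4 := in_const (A := Cube n) (g x)
    unfold ac'
    unfold av at h4 ⊢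
    rw [sum_sub_distrib, sub_div, h4]
  rw [h2]
  exact (norm_av_le _).trans (avg_mono fun s => h _)

/-! ## The expansion -/

/-- The heavy sets with at most `s` blocks. -/
def hs (J : Finset (Fin n)) (s : ℕ) : Finset (Finset (Fin n)) :=
  J.powerset.filter fun T => T.card ≤ s

theorem one_of_heavy (x : Cube n) {T : Finset (Fin n)} (h : ∀ j ∈ T, A j x) :
    ∏ j ∈ T, one (A j x) = 1 := prod_eq_one fun j hj => Dnf.one_true (h j hj)

theorem prod_one_nonneg (x : Cube n) (T : Finset (Fin n)) : 0 ≤ ∏ j ∈ T, one (A j x) :=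
  prod_nonneg fun _ _ => Dnf.one_nonneg _

/-- The terms with more than `s` heavy blocks. -/
theorem sh_tail (h : Blk N J I f) (hd : Dp J I A Φ) (s : ℕ) (x : Cube n) :
    ∑ T ∈ J.powerset.filter (fun T => ¬ T.card ≤ s),
      ‖hF J I A Φ f T x * ∏ j ∈ J \ T, lt A f j x‖ ≤
      ∑ T ∈ J.powersetCard (s + 1), ∏ j ∈ T, one (A j x) := by
  classical
  set T₀ := J.filter fun j => A j x with hT₀
  have h0 : ∀ T ∈ J.powerset, T ≠ T₀ → hF J I A Φ f T x * ∏ j ∈ J \ T, lt A f j x = 0 := by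
    intro T hT hne
    rw [mem_powerset] at hT
    by_cases h : ∃ j ∈ T, ¬ A j x
    · obtain ⟨j, hj, hA⟩ := h
      unfold hF
      rw [prod_eq_zero hj (by rw [Dnf.one_false hA]; simp)]
      ring
    · push Not at h
      have h1 : ∃ j ∈ J, j ∉ T ∧ A j x := by
        by_contra hcon
        push Not at hcon
        apply hne
        ext j
        rw [mem_filter]
        constructor
        · exact fun hj => ⟨hT hj, h j hj⟩
        · rintro ⟨hj, hA⟩
          by_contra hjT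
          exact hcon j hj hjT hA
      obtain ⟨j, hj, hjT, hA⟩ := h1
      have h2 : ∏ j ∈ J \ T, lt A f j x = 0 :=
        prod_eq_zero (mem_sdiff.2 ⟨hj, hjT⟩) (by
          unfold lt
          rw [Dnf.one_false (not_not.2 hA)]
          simp)
      rw [h2, mul_zero]
  have hnn : ∀ T ∈ J.powersetCard (s + 1), 0 ≤ ∏ j ∈ T, one (A j x) :=
    fun T _ => prod_one_nonneg x T
  by_cases hc : T₀.card ≤ s
  · refine le_trans (le_of_eq ?_) (sum_nonneg hnn)
    refine sum_eq_zero fun T hT => ?_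
    rw [mem_filter] at hT
    rw [h0 T hT.1 (fun e => hT.2 (e ▸ hc)), norm_zero]
  · have h1 : ∑ T ∈ J.powerset.filter (fun T => ¬ T.card ≤ s),
        ‖hF J I A Φ f T x * ∏ j ∈ J \ T, lt A f j x‖ ≤ 1 := by
      rw [sum_eq_single_of_mem T₀ (mem_filter.2 ⟨mem_powerset.2 (filter_subset _ _), hc⟩)
        fun T hT hne => by rw [h0 T (mem_filter.1 hT).1 hne, norm_zero]]
      rw [norm_mul, norm_prod]
      have h2 : ‖hF J I A Φ f T₀ x‖ ≤ 1 :=
        (hF_norm h hd (filter_subset _ _) x).trans (prod_le_one (fun _ _ => Dnf.one_nonneg _)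
          fun _ _ => Dnf.one_le _)
      have h3 : ∏ j ∈ J \ T₀, ‖lt A f j x‖ ≤ 1 :=
        prod_le_one (fun _ _ => norm_nonneg _) fun j hj => lt_le h j (mem_sdiff.1 hj).1 x
      exact mul_le_one₀ h2 (prod_nonneg fun _ _ => norm_nonneg _) h3
    refine h1.trans ?_
    obtain ⟨T₁, hT₁, hc₁⟩ := exists_subset_card_eq (show s + 1 ≤ T₀.card by omega)
    have h2 : ∏ j ∈ T₁, one (A j x) = 1 :=
      one_of_heavy x fun j hj => (mem_filter.1 (hT₁ hj)).2
    have h3 : T₁ ∈ J.powersetCard (s + 1) :=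
      mem_powersetCard.2 ⟨hT₁.trans (filter_subset _ _), hc₁⟩
    exact h2 ▸ single_le_sum hnn h3

/-- `∑_T ∏_{j ∈ T} p j ≤ exp (∑ p j)`. -/
theorem sum_prod_le_exp (J : Finset (Fin n)) (p : Fin n → ℝ) :
    ∑ T ∈ J.powerset, ∏ j ∈ T, p j ≤ Real.exp (∑ j ∈ J, p j) ∨ ∃ j ∈ J, p j < 0 := by
  by_cases h : ∃ j ∈ J, p j < 0
  · exact Or.inr h
  · left
    push Not at h
    rw [← prod_one_add, Real.exp_sum]
    refine prod_le_prod (fun j hj => by linarith [h j hj]) fun j _ => ?_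
    linarith [Real.add_one_le_exp (p j)]

theorem sh_count (hA : Ev K J I A) :
    ∑ T ∈ J.powerset, ∏ j ∈ T, (avg fun x => one (A j x)) ≤ Real.exp K := by
  rcases sum_prod_le_exp J (fun j => avg fun x => one (A j x)) with h | ⟨j, _, h⟩
  · exact h.trans (Real.exp_le_exp.2 hA.mass)
  · exact absurd h (not_lt.2 (mass_nonneg _))

theorem sh_count2 (hA : Ev K J I A) (s : ℕ) :
    ∑ T ∈ J.powersetCard (s + 1), ∏ j ∈ T, (avg fun x => one (A j x)) ≤
      (1 / 2) ^ (s + 1) * Real.exp (2 * K) := by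
  have h1 : ∀ T ∈ J.powersetCard (s + 1), ∏ j ∈ T, (avg fun x => one (A j x)) =
      (1 / 2) ^ (s + 1) * ∏ j ∈ T, (2 * avg fun x => one (A j x)) := by
    intro T hT
    rw [prod_mul_distrib, prod_const, (mem_powersetCard.1 hT).2, ← mul_assoc, ← mul_pow]
    norm_num
  rw [sum_congr rfl h1, ← mul_sum]
  refine mul_le_mul_of_nonneg_left ?_ (by positivity)
  have h2 : ∑ T ∈ J.powersetCard (s + 1), ∏ j ∈ T, (2 * avg fun x => one (A j x)) ≤
      ∑ T ∈ J.powerset, ∏ j ∈ T, (2 * avg fun x => one (A j x)) := by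
    refine sum_le_sum_of_subset_of_nonneg (fun T hT => ?_) fun T _ _ =>
      prod_nonneg fun j _ => mul_nonneg (by norm_num) (mass_nonneg _)
    exact mem_powerset.2 (mem_powersetCard.1 hT).1
  refine h2.trans ?_
  rcases sum_prod_le_exp J (fun j => 2 * avg fun x => one (A j x)) with h | ⟨j, _, h⟩
  · refine h.trans (Real.exp_le_exp.2 ?_)
    rw [← mul_sum]
    linarith [hA.mass]
  · exact absurd h (not_lt.2 (mul_nonneg (by norm_num) (mass_nonneg _)))

/-- The indicator of the heavy blocks is a function of these blocks. -/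
theorem on_heavy (hA : Ev K J I A) {T : Finset (Fin n)} (hT : T ⊆ J) :
    On (T.biUnion I) fun x => ∏ j ∈ T, one (A j x) := by
  intro x y h
  refine prod_congr rfl fun j hj => ?_
  rw [hA.on j (hT hj) x y fun i hi => h i (mem_biUnion.2 ⟨j, hj, hi⟩)]

theorem real_indep {V : Finset (Fin n)} {u v : Cube n → ℝ} (hu : On V u) (hv : On Vᶜ v) :
    avg (fun x => u x * v x) = avg u * avg v := by
  rw [spb_avg_E, spb_avg_E, spb_avg_E]
  exact Dnf.E_indep disjoint_compl_right hu hv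

/-- The light blocks are outside. -/
theorem light_on (h : Blk N J I f) (hA : Ev K J I A) {T : Finset (Fin n)} (hT : T ⊆ J) :
    On (T.biUnion I)ᶜ fun x => ∏ j ∈ J \ T, lt A f j x := by
  intro x y hxy
  refine prod_congr rfl fun j hj => lt_on h hA j (mem_sdiff.1 hj).1 x y fun i hi => hxy i ?_
  rw [mem_compl]
  exact fun h' => disjoint_left.1 (disj_biUnion h hT) h'
    (mem_biUnion.2 ⟨j, hj, hi⟩)

theorem card_biUnion_pow (h : Blk N J I f) {T : Finset (Fin n)} (hT : T ⊆ J) :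
    (2 : ℝ) ^ (T.biUnion I).card ≤ (N : ℝ) ^ T.card := by
  classical
  have h1 : (T.biUnion I).card ≤ ∑ j ∈ T, (I j).card := card_biUnion_le
  have h2 : (2 : ℕ) ^ (T.biUnion I).card ≤ N ^ T.card := by
    calc (2 : ℕ) ^ (T.biUnion I).card ≤ 2 ^ (∑ j ∈ T, (I j).card) :=
          Nat.pow_le_pow_right (by norm_num) h1
      _ = ∏ j ∈ T, 2 ^ (I j).card := (prod_pow_eq_pow_sum _ _ _).symm
      _ ≤ ∏ _j ∈ T, N := prod_le_prod' fun j hj => h.wd j (hT hj)
      _ = N ^ T.card := by rw [prod_const]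
  exact_mod_cast h2

theorem sbh {Lam K ε : ℝ} (hε : 0 < ε) : ∃ C : ℕ, ∀ (n N : ℕ) (J : Finset (Fin n))
    (I : Fin n → Finset (Fin n)) (g : Fin n → Cube n → ℂ) (A : Fin n → Cube n → Prop)
    (Φ : Cube n → ℂ), Blk N J I g → Ev K J I A → Dp J I A Φ →
    ∑ j ∈ J, (1 - ‖av (g j)‖) ≤ Lam → ∃ (t : Cube n → ℂ) (R : Cube n → ℝ),
      (∀ x, ‖Φ x * ∏ j ∈ J, g j x - t x‖ ≤ R x) ∧ avg R ≤ ε ∧ Sp (bd C n N) t ∧
      Sp (bd C n N) (fun x => ((R x : ℝ) : ℂ)) := by
  classical
  -- the number of heavy blocks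
  obtain ⟨s, hs1⟩ : ∃ s : ℕ, (1 / 2 : ℝ) ^ (s + 1) * Real.exp (2 * K) ≤ ε / 2 := by
    obtain ⟨s, h1⟩ := exists_pow_lt_of_lt_one (show 0 < ε / 2 / Real.exp (2 * K) by positivity)
      (show (1 / 2 : ℝ) < 1 by norm_num)
    refine ⟨s, ?_⟩
    have h2 : (1 / 2 : ℝ) ^ (s + 1) ≤ (1 / 2) ^ s :=
      pow_le_pow_of_le_one (by norm_num) (by norm_num) (Nat.le_succ s)
    have h3 : (1 / 2 : ℝ) ^ (s + 1) ≤ ε / 2 / Real.exp (2 * K) := by linarith
    rwa [le_div_iff₀ (Real.exp_pos _)] at h3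
  obtain ⟨C₀, hC₀⟩ := sb (Lam := Lam + K) (ε := ε / 2 / Real.exp K) (by positivity)
  refine ⟨(s + 1) * C₀ + (s + 1) + C₀ + (s + 2) + ((s + 1) * C₀ + (s + 1) + C₀),
    fun n N J I g A Φ hB hA hΦ hL => ?_⟩
  -- small bias for the light blocks
  have hT : ∀ T : Finset (Fin n), T ⊆ J → ∃ (t : Cube n → ℂ) (R : Cube n → ℝ),
      (∀ x, ‖∏ j ∈ J \ T, lt A g j x - t x‖ ≤ R x) ∧ avg R ≤ ε / 2 / Real.exp K ∧
      Sp (bd C₀ n N) t ∧ Sp (bd C₀ n N) (fun x => ((R x : ℝ) : ℂ)) ∧
      On (T.biUnion I)ᶜ R := by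
    intro T hTJ
    have hb : Blk N (J \ T) I (lt A g) :=
      { pos := hB.pos
        dj := fun i hi j hj hij => hB.dj i (mem_sdiff.1 hi).1 j (mem_sdiff.1 hj).1 hij
        wd := fun j hj => hB.wd j (mem_sdiff.1 hj).1
        on := fun j hj => lt_on hB hA j (mem_sdiff.1 hj).1
        le := fun j hj => lt_le hB j (mem_sdiff.1 hj).1 }
    have h1 : ∑ j ∈ J \ T, (1 - ‖av (lt A g j)‖) ≤ Lam + K := by
      calc ∑ j ∈ J \ T, (1 - ‖av (lt A g j)‖)
          ≤ ∑ j ∈ J \ T, ((1 - ‖av (g j)‖) + avg fun x => one (A j x)) := by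
            refine sum_le_sum fun j hj => ?_
            have := (lt_av (A := A) hB (mem_sdiff.1 hj).1).2
            linarith
        _ ≤ ∑ j ∈ J, ((1 - ‖av (g j)‖) + avg fun x => one (A j x)) := by
            refine sum_le_sum_of_subset_of_nonneg sdiff_subset fun j hj _ => ?_
            have h2 : ‖av (g j)‖ ≤ 1 :=
              (norm_av_le _).trans ((avg_mono fun x => hB.le j hj x).trans (le_of_eq (avg_const 1)))
            have h3 := mass_nonneg (A j)
            linarith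
        _ ≤ Lam + K := by
            rw [sum_add_distrib]
            exact add_le_add hL hA.mass
    obtain ⟨t, R, h2, h3, h4, h5⟩ := hC₀ n N (J \ T) I (lt A g) hb h1
    exact ⟨ac' (T.biUnion I) t, ar (T.biUnion I) R, ac_close (light_on hB hA hTJ) h2,
      (avg_ar _ _).trans_le h3, sp_ac _ h4, sp_ar _ h5, ar_on _ _⟩
  choose! t R ht using hT
  have hpos : ∀ T ∈ hs J s, T ⊆ J := fun T hT => mem_powerset.1 (mem_filter.1 hT).1
  have hcard : ∀ T ∈ hs J s, T.card ≤ s := fun T hT => (mem_filter.1 hT).2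
  have hsc : ((hs J s).card : ℝ) ≤ ((n : ℝ) + 1) ^ s := by
    have h1 := sn_card J s
    have h2 : J.card ≤ n := by simpa using card_le_univ J
    have h3 : (hs J s).card ≤ (n + 1) ^ s :=
      h1.trans (Nat.pow_le_pow_left (by omega) s)
    exact_mod_cast h3
  have hN1 : (1 : ℝ) ≤ N := by exact_mod_cast hB.pos
  have hn1 : (1 : ℝ) ≤ (n : ℝ) + 1 := by linarith [Nat.cast_nonneg (α := ℝ) n]
  have hnN : (1 : ℝ) ≤ ((n : ℝ) + 1) * N := by nlinarith
  -- norms of the heavy factors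
  have hNs : ∀ T ∈ hs J s, (2 : ℝ) ^ (T.biUnion I).card ≤ (N : ℝ) ^ s := fun T hT =>
    (card_biUnion_pow hB (hpos T hT)).trans (pow_le_pow_right₀ hN1 (hcard T hT))
  have hpb : ∀ k : ℕ, (((n : ℝ) + 1) * N) ^ k ≤ bd (k + 1) n N := by
    intro k
    unfold bd
    have h1 : (((n : ℝ) + 1) * N) ^ k ≤ (((n : ℝ) + 1) * N) ^ (k + 1) :=
      pow_le_pow_right₀ hnN (Nat.le_succ k)
    have h2 : (1 : ℝ) ≤ ((k + 1 : ℕ) : ℝ) := by
      push_cast
      linarith [Nat.cast_nonneg (α := ℝ) k]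
    have h3 : (0 : ℝ) ≤ (((n : ℝ) + 1) * N) ^ (k + 1) := by positivity
    nlinarith
  have hbd0 := bd_nonneg C₀ n N
  have hmain : ((n : ℝ) + 1) ^ s * ((N : ℝ) ^ s * bd C₀ n N) ≤
      bd ((s + 1) * C₀ + (s + 1) + C₀) n N := by
    calc ((n : ℝ) + 1) ^ s * ((N : ℝ) ^ s * bd C₀ n N)
        = (((n : ℝ) + 1) * N) ^ s * bd C₀ n N := by rw [mul_pow]; ring
      _ ≤ bd (s + 1) n N * bd C₀ n N := mul_le_mul_of_nonneg_right (hpb s) hbd0
      _ ≤ _ := bd_mul hB.pos n
  -- the heavy indicators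
  have hsp1 : ∀ T : Finset (Fin n), T ⊆ J → Sp ((N : ℝ) ^ T.card)
      (fun x => ((∏ j ∈ T, one (A j x) : ℝ) : ℂ)) := by
    intro T hTJ
    have h1 : On (T.biUnion I) fun x => ((∏ j ∈ T, one (A j x) : ℝ) : ℂ) := fun x y h => by
      simp only [on_heavy hA hTJ x y h]
    refine (sp_on (B := 1) h1 fun x => ?_).mono ?_
    · rw [Complex.norm_real, Real.norm_eq_abs, abs_of_nonneg (prod_one_nonneg x T)]
      exact prod_le_one (fun _ _ => Dnf.one_nonneg _) fun _ _ => Dnf.one_le _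
    · rw [mul_one]
      exact card_biUnion_pow hB hTJ
  refine ⟨fun x => ∑ T ∈ hs J s, hF J I A Φ g T x * t T x,
    fun x => (∑ T ∈ hs J s, (∏ j ∈ T, one (A j x)) * R T x) +
      ∑ T ∈ J.powersetCard (s + 1), ∏ j ∈ T, one (A j x), ?_, ?_, ?_, ?_⟩
  · -- the pointwise bound
    intro x
    rw [expand hΦ g x, ← sum_filter_add_sum_filter_not J.powerset (fun T => T.card ≤ s)]
    have h1 : (∑ T ∈ J.powerset.filter (fun T => T.card ≤ s),
        hF J I A Φ g T x * ∏ j ∈ J \ T, lt A g j x) +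
        (∑ T ∈ J.powerset.filter (fun T => ¬ T.card ≤ s),
          hF J I A Φ g T x * ∏ j ∈ J \ T, lt A g j x) -
        ∑ T ∈ hs J s, hF J I A Φ g T x * t T x =
        (∑ T ∈ hs J s, hF J I A Φ g T x * (∏ j ∈ J \ T, lt A g j x - t T x)) +
        ∑ T ∈ J.powerset.filter (fun T => ¬ T.card ≤ s),
          hF J I A Φ g T x * ∏ j ∈ J \ T, lt A g j x := by
      simp only [mul_sub, sum_sub_distrib]
      unfold hs
      ring
    rw [h1]
    refine (norm_add_le _ _).trans (add_le_add ?_ ?_)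
    · refine (norm_sum_le _ _).trans (sum_le_sum fun T hT => ?_)
      rw [norm_mul]
      exact mul_le_mul (hF_norm hB hΦ (hpos T hT) x) ((ht T (hpos T hT)).1 x) (norm_nonneg _)
        (prod_one_nonneg x T)
    · exact (norm_sum_le _ _).trans (sh_tail hB hΦ s x)
  · -- the average
    rw [avg_add]
    have h1 : (avg fun x => ∑ T ∈ hs J s, (∏ j ∈ T, one (A j x)) * R T x) ≤ ε / 2 := by
      rw [avg_sum]
      have h2 : ∀ T ∈ hs J s, (avg fun x => (∏ j ∈ T, one (A j x)) * R T x) ≤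
          (∏ j ∈ T, avg fun x => one (A j x)) * (ε / 2 / Real.exp K) := by
        intro T hT
        obtain ⟨-, h4, -, -, h7⟩ := ht T (hpos T hT)
        rw [real_indep (on_heavy hA (hpos T hT)) h7, avg_prod_one hB hA (hpos T hT)]
        exact mul_le_mul_of_nonneg_left h4 (prod_nonneg fun _ _ => mass_nonneg _)
      refine (sum_le_sum h2).trans ?_
      rw [← sum_mul]
      have h3 : ∑ T ∈ hs J s, ∏ j ∈ T, (avg fun x => one (A j x)) ≤ Real.exp K := by
        refine le_trans (sum_le_sum_of_subset_of_nonneg (filter_subset _ _) fun T _ _ =>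
          prod_nonneg fun _ _ => mass_nonneg _) (sh_count hA)
      calc (∑ T ∈ hs J s, ∏ j ∈ T, (avg fun x => one (A j x))) * (ε / 2 / Real.exp K)
          ≤ Real.exp K * (ε / 2 / Real.exp K) := mul_le_mul_of_nonneg_right h3 (by positivity)
        _ = ε / 2 := by
            field_simp
    have h2 : (avg fun x => ∑ T ∈ J.powersetCard (s + 1), ∏ j ∈ T, one (A j x)) ≤ ε / 2 := by
      rw [avg_sum]
      refine le_trans (le_of_eq (sum_congr rfl fun T hT => ?_)) ((sh_count2 hA s).trans hs1)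
      exact avg_prod_one hB hA (mem_powersetCard.1 hT).1
    linarith
  · -- the norm of `t`
    have h1 := Sp.sum (hs J s) (fun _ => (N : ℝ) ^ s * bd C₀ n N)
      (fun T x => hF J I A Φ g T x * t T x) fun T hT => by
        have h2 : Sp ((N : ℝ) ^ s) (hF J I A Φ g T) := by
          refine (sp_on (B := 1) (hF_on hB hA (hpos T hT)) fun x => ?_).mono ?_
          · exact (hF_norm hB hΦ (hpos T hT) x).trans
              (prod_le_one (fun _ _ => Dnf.one_nonneg _) fun _ _ => Dnf.one_le _)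
          · rw [mul_one]
            exact hNs T hT
        exact h2.mul (ht T (hpos T hT)).2.2.1
    refine h1.mono ?_
    rw [sum_const, nsmul_eq_mul]
    have h2 : ((hs J s).card : ℝ) * ((N : ℝ) ^ s * bd C₀ n N) ≤
        ((n : ℝ) + 1) ^ s * ((N : ℝ) ^ s * bd C₀ n N) :=
      mul_le_mul_of_nonneg_right hsc (mul_nonneg (by positivity) hbd0)
    exact (h2.trans hmain).trans (bd_mono (by omega) hB.pos n)
  · -- the norm of `R`
    have h1 := Sp.sum (hs J s) (fun _ => (N : ℝ) ^ s * bd C₀ n N)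
      (fun T x => ((∏ j ∈ T, one (A j x) : ℝ) : ℂ) * ((R T x : ℝ) : ℂ)) fun T hT => by
        have h2 : Sp ((N : ℝ) ^ s) (fun x => ((∏ j ∈ T, one (A j x) : ℝ) : ℂ)) :=
          (hsp1 T (hpos T hT)).mono (pow_le_pow_right₀ hN1 (hcard T hT))
        exact h2.mul (ht T (hpos T hT)).2.2.2.1
    have h2 := Sp.sum (J.powersetCard (s + 1)) (fun _ => (N : ℝ) ^ (s + 1))
      (fun T x => ((∏ j ∈ T, one (A j x) : ℝ) : ℂ)) fun T hT => by
        have h3 := hsp1 T (mem_powersetCard.1 hT).1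
        rwa [(mem_powersetCard.1 hT).2] at h3
    refine ((h1.add h2).mono ?_).congr' fun x => ?_
    · rw [sum_const, sum_const, nsmul_eq_mul, nsmul_eq_mul]
      have h3 : ((hs J s).card : ℝ) * ((N : ℝ) ^ s * bd C₀ n N) ≤
          bd ((s + 1) * C₀ + (s + 1) + C₀) n N :=
        (mul_le_mul_of_nonneg_right hsc (mul_nonneg (by positivity) hbd0)).trans hmain
      have h4 : ((J.powersetCard (s + 1)).card : ℝ) * (N : ℝ) ^ (s + 1) ≤ bd (s + 2) n N := by
        have h5 : ((J.powersetCard (s + 1)).card : ℝ) ≤ ((n : ℝ) + 1) ^ (s + 1) := by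
          have h6 : J.powersetCard (s + 1) ⊆ J.powerset.filter fun T => T.card ≤ s + 1 := by
            intro T hT
            rw [mem_powersetCard] at hT
            exact mem_filter.2 ⟨mem_powerset.2 hT.1, hT.2.le⟩
          have h7 : J.card ≤ n := by simpa using card_le_univ J
          have h8 : (J.powersetCard (s + 1)).card ≤ (n + 1) ^ (s + 1) :=
            (card_le_card h6).trans ((sn_card J (s + 1)).trans
              (Nat.pow_le_pow_left (by omega) (s + 1)))
          exact_mod_cast h8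
        calc ((J.powersetCard (s + 1)).card : ℝ) * (N : ℝ) ^ (s + 1)
            ≤ ((n : ℝ) + 1) ^ (s + 1) * (N : ℝ) ^ (s + 1) :=
              mul_le_mul_of_nonneg_right h5 (by positivity)
          _ = (((n : ℝ) + 1) * N) ^ (s + 1) := (mul_pow _ _ _).symm
          _ ≤ bd (s + 2) n N := hpb (s + 1)
      exact (add_le_add h3 h4).trans ((bd_add hB.pos n).trans (bd_mono (by omega) hB.pos n))
    · push_cast
      rfl

end Pool.Agent.MP_ca1109_lc.Ph
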