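import Pool.Agent.MP_ca1109_lc.Ph.Defs
import Pool.Agent.MP_ca1109_lc.Pt.IN

/-!
# Row UB: heavy product tests under the uniform distribution
-/

namespace Pool.Agent.MP_ca1109_lc.Ph

open Finset Pool.Agent.H66 Pool.Agent.MP_ca1109_lc.Mpg Pool.Agent.MP_ca1109_lc.Agp
  Pool.Agent.MP_ca1109_lc.Xp Pool.Agent.MP_ca1109_lc.Pt
open Pool.Agent.MP_ca1109_lc.Dnf (Cube ch one On)

variable {n : ℕ} {N : ℕ} {K : ℝ} {J : Finset (Fin n)} {I : Fin n → Finset (Fin n)}
  {f : Fin n → Cube n → ℂ} {A : Fin n → Cube n → Prop} {Φ : Cube n → ℂ}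

open Classical in
/-- The value of `Φ` at some point with the property `p`. -/
noncomputable def pick (Φ : Cube n → ℂ) (p : Cube n → Prop) : ℂ :=
  if h : ∃ z, p z then Φ h.choose else 0

/-- The value of `Φ` if the heavy blocks are exactly those in `T`. -/
noncomputable def phA (J : Finset (Fin n)) (I : Fin n → Finset (Fin n)) (A : Fin n → Cube n → Prop)
    (Φ : Cube n → ℂ) (T : Finset (Fin n)) (x : Cube n) : ℂ :=
  pick Φ fun z => (∀ j ∈ J, (A j z ↔ j ∈ T)) ∧ ∀ j ∈ T, ∀ i ∈ I j, z i = x i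

/-- The heavy factor. -/
noncomputable def hF (J : Finset (Fin n)) (I : Fin n → Finset (Fin n)) (A : Fin n → Cube n → Prop)
    (Φ : Cube n → ℂ) (f : Fin n → Cube n → ℂ) (T : Finset (Fin n)) (x : Cube n) : ℂ :=
  phA J I A Φ T x * ∏ j ∈ T, (f j x * ((one (A j x) : ℝ) : ℂ))

/-- The light factor. -/
noncomputable def lt (A : Fin n → Cube n → Prop) (f : Fin n → Cube n → ℂ) (j : Fin n)
    (x : Cube n) : ℂ := f j x * ((one (¬ A j x) : ℝ) : ℂ)

theorem phA_on (T : Finset (Fin n)) : On (T.biUnion I) (phA J I A Φ T) := by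
  intro x y h
  unfold phA
  congr 1
  funext z
  refine propext (and_congr Iff.rfl ?_)
  constructor
  · intro h1 j hj i hi
    rw [h1 j hj i hi, h i (mem_biUnion.2 ⟨j, hj, hi⟩)]
  · intro h1 j hj i hi
    rw [h1 j hj i hi, h i (mem_biUnion.2 ⟨j, hj, hi⟩)]

theorem phA_le (hd : Dp J I A Φ) (T : Finset (Fin n)) (x : Cube n) : ‖phA J I A Φ T x‖ ≤ 1 := by
  unfold phA pick
  split_ifs
  · exact hd.le _
  · simp

theorem phA_eq (hd : Dp J I A Φ) {T : Finset (Fin n)} {x : Cube n}
    (hx : ∀ j ∈ J, (A j x ↔ j ∈ T)) : phA J I A Φ T x = Φ x := by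
  unfold phA pick
  have hex : ∃ z : Cube n, (∀ j ∈ J, (A j z ↔ j ∈ T)) ∧ ∀ j ∈ T, ∀ i ∈ I j, z i = x i :=
    ⟨x, hx, fun _ _ _ _ => rfl⟩
  rw [dif_pos hex]
  obtain ⟨h1, h2⟩ := hex.choose_spec
  refine hd.dep _ _ fun j hj h3 i hi => ?_
  rcases h3 with h3 | h3
  · exact h2 j ((h1 j hj).1 h3) i hi
  · exact h2 j ((hx j hj).1 h3) i hi

theorem one_cast_norm (p : Prop) : ‖((one p : ℝ) : ℂ)‖ = one p := by
  rw [Complex.norm_real, Real.norm_eq_abs, abs_of_nonneg (Dnf.one_nonneg p)]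

/-- The expansion over the heavy blocks. -/
theorem expand (hd : Dp J I A Φ) (f : Fin n → Cube n → ℂ) (x : Cube n) :
    Φ x * ∏ j ∈ J, f j x = ∑ T ∈ J.powerset, hF J I A Φ f T x * ∏ j ∈ J \ T, lt A f j x := by
  classical
  set T₀ := J.filter fun j => A j x with hT₀
  rw [sum_eq_single_of_mem T₀ (mem_powerset.2 (filter_subset _ _))]
  · have h1 : phA J I A Φ T₀ x = Φ x := phA_eq hd fun j hj => by simp [hT₀, hj]
    have h2 : ∏ j ∈ T₀, (f j x * ((one (A j x) : ℝ) : ℂ)) = ∏ j ∈ T₀, f j x := by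
      refine prod_congr rfl fun j hj => ?_
      rw [Dnf.one_true (mem_filter.1 hj).2]
      simp
    have h3 : ∏ j ∈ J \ T₀, lt A f j x = ∏ j ∈ J \ T₀, f j x := by
      refine prod_congr rfl fun j hj => ?_
      rw [mem_sdiff] at hj
      have h4 : ¬ A j x := fun h => hj.2 (mem_filter.2 ⟨hj.1, h⟩)
      unfold lt
      rw [Dnf.one_true h4]
      simp
    unfold hF
    rw [h1, h2, h3, mul_assoc, mul_comm (∏ j ∈ T₀, f j x),
      prod_sdiff (filter_subset _ _)]
  · intro T hT hne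
    rw [mem_powerset] at hT
    by_cases h : ∃ j ∈ T, ¬ A j x
    · obtain ⟨j, hj, hA⟩ := h
      unfold hF
      rw [prod_eq_zero hj (by rw [Dnf.one_false hA]; simp)]
      ring
    · push Not at h
      have h1 : ∃ j ∈ J, j ∉ T ∧ A j x := by
        by_contra hcon
        push Not at hcon
        apply hne
        ext j
        rw [mem_filter]
        constructor
        · exact fun hj => ⟨hT hj, h j hj⟩
        · rintro ⟨hj, hA⟩
          by_contra hjT
          exact hcon j hj hjT hA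
      obtain ⟨j, hj, hjT, hA⟩ := h1
      have h2 : ∏ j ∈ J \ T, lt A f j x = 0 :=
        prod_eq_zero (mem_sdiff.2 ⟨hj, hjT⟩) (by
          unfold lt
          rw [Dnf.one_false (not_not.2 hA)]
          simp)
      rw [h2, mul_zero]

theorem on_one {B : Finset (Fin n)} {p : Cube n → Prop} (h : On B p) :
    On B fun x => ((one (p x) : ℝ) : ℂ) := fun x y hxy => by
  simp only [h x y hxy]

theorem lt_on (h : Blk N J I f) (he : Ev K J I A) : ∀ j ∈ J, On (I j) (lt A f j) := by
  intro j hj x y hxy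
  unfold lt
  rw [h.on j hj x y hxy, he.on j hj x y hxy]

theorem lt_le (h : Blk N J I f) : ∀ j ∈ J, ∀ x, ‖lt A f j x‖ ≤ 1 := by
  intro j hj x
  unfold lt
  rw [norm_mul, one_cast_norm]
  exact mul_le_one₀ (h.le j hj x) (Dnf.one_nonneg _) (Dnf.one_le _)

theorem hF_on (h : Blk N J I f) (he : Ev K J I A) {T : Finset (Fin n)} (hT : T ⊆ J) :
    On (T.biUnion I) (hF J I A Φ f T) := by
  intro x y hxy
  unfold hF
  rw [phA_on T x y hxy]
  congr 1
  refine prod_congr rfl fun j hj => ?_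
  have h1 : ∀ i ∈ I j, x i = y i := fun i hi => hxy i (mem_biUnion.2 ⟨j, hj, hi⟩)
  rw [h.on j (hT hj) x y h1, he.on j (hT hj) x y h1]

theorem hF_norm (h : Blk N J I f) (hd : Dp J I A Φ) {T : Finset (Fin n)} (hT : T ⊆ J)
    (x : Cube n) : ‖hF J I A Φ f T x‖ ≤ ∏ j ∈ T, one (A j x) := by
  unfold hF
  rw [norm_mul, norm_prod]
  have h1 : ∏ j ∈ T, ‖f j x * ((one (A j x) : ℝ) : ℂ)‖ ≤ ∏ j ∈ T, one (A j x) := by
    refine prod_le_prod (fun _ _ => norm_nonneg _) fun j hj => ?_
    rw [norm_mul, one_cast_norm]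
    exact mul_le_of_le_one_left (Dnf.one_nonneg _) (h.le j (hT hj) x)
  calc ‖phA J I A Φ T x‖ * ∏ j ∈ T, ‖f j x * ((one (A j x) : ℝ) : ℂ)‖
      ≤ 1 * ∏ j ∈ T, one (A j x) :=
        mul_le_mul (phA_le hd T x) h1 (prod_nonneg fun _ _ => norm_nonneg _) zero_le_one
    _ = _ := one_mul _

theorem avg_prod_one (h : Blk N J I f) (he : Ev K J I A) {T : Finset (Fin n)} (hT : T ⊆ J) :
    (avg fun x => ∏ j ∈ T, one (A j x)) = ∏ j ∈ T, avg fun x => one (A j x) := by
  have h1 := in_prod T I (fun j x => ((one (A j x) : ℝ) : ℂ))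
    (fun i hi j hj => h.dj i (hT hi) j (hT hj)) fun j hj => on_one (he.on j (hT hj))
  have h2 : (fun x : Cube n => ∏ j ∈ T, ((one (A j x) : ℝ) : ℂ)) =
      fun x => ((∏ j ∈ T, one (A j x) : ℝ) : ℂ) := by
    funext x
    push_cast
    rfl
  rw [h2, spb_avg_ofReal] at h1
  simp only [spb_avg_ofReal] at h1
  exact_mod_cast h1

theorem disj_biUnion (h : Blk N J I f) {T : Finset (Fin n)} (hT : T ⊆ J) :
    Disjoint (T.biUnion I) ((J \ T).biUnion I) := by
  rw [disjoint_biUnion_left]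
  intro i hi
  rw [disjoint_biUnion_right]
  intro j hj
  rw [mem_sdiff] at hj
  exact h.dj i (hT hi) j hj.1 fun hij => hj.2 (hij ▸ hi)

theorem prod_on {T : Finset (Fin n)} {g : Fin n → Cube n → ℂ} (hg : ∀ j ∈ T, On (I j) (g j)) :
    On (T.biUnion I) fun x => ∏ j ∈ T, g j x := by
  intro x y h
  refine prod_congr rfl fun j hj => hg j hj x y fun i hi => h i (mem_biUnion.2 ⟨j, hj, hi⟩)

/-- The average of the light factor. -/
theorem lt_av (h : Blk N J I f) {j : Fin n} (hj : j ∈ J) :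
    ‖av (lt A f j)‖ ≤ ‖av (f j)‖ + avg (fun x => one (A j x)) ∧
      ‖av (f j)‖ ≤ ‖av (lt A f j)‖ + avg (fun x => one (A j x)) := by
  have h1 : av (f j) - av (lt A f j) = av fun x => f j x * ((one (A j x) : ℝ) : ℂ) := by
    unfold av
    rw [← sub_div, ← sum_sub_distrib]
    congr 1
    refine sum_congr rfl fun x _ => ?_
    unfold lt
    rw [Dnf.one_not]
    push_cast
    ring
  have h2 : ‖av (f j) - av (lt A f j)‖ ≤ avg fun x => one (A j x) := by
    rw [h1]
    refine (norm_av_le _).trans (avg_mono fun x => ?_)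
    rw [norm_mul, one_cast_norm]
    exact mul_le_of_le_one_left (Dnf.one_nonneg _) (h.le j hj x)
  constructor
  · have h3 := norm_sub_norm_le (av (lt A f j)) (av (f j))
    rw [norm_sub_rev] at h3
    linarith
  · have h3 := norm_sub_norm_le (av (f j)) (av (lt A f j))
    linarith

theorem mass_nonneg (p : Cube n → Prop) : 0 ≤ avg fun x => one (p x) :=
  avg_nonneg fun _ => Dnf.one_nonneg _

/-- The uniform distribution. -/
theorem ub (h : Blk N J I f) (hA : Ev K J I A) (hΦ : Dp J I A Φ) :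
    ‖av fun x => Φ x * ∏ j ∈ J, f j x‖ ≤
      Real.exp (2 * K - ∑ j ∈ J, (1 - ‖av (f j)‖)) := by
  classical
  have he := hA
  have hd := hΦ
  have h1 : (fun x => Φ x * ∏ j ∈ J, f j x) = fun x =>
      ∑ T ∈ J.powerset, hF J I A Φ f T x * ∏ j ∈ J \ T, lt A f j x :=
    funext (expand hd f)
  rw [h1, spb_av_sum]
  have h2 : ∀ T ∈ J.powerset, ‖av fun x => hF J I A Φ f T x * ∏ j ∈ J \ T, lt A f j x‖ ≤
      (∏ j ∈ T, avg fun x => one (A j x)) * ∏ j ∈ J \ T, ‖av (lt A f j)‖ := by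
    intro T hT
    rw [mem_powerset] at hT
    rw [av_mul_on (disj_biUnion h hT) (hF_on h he hT)
      (prod_on fun j hj => lt_on h he j (mem_sdiff.1 hj).1), norm_mul]
    rw [in_prod (J \ T) I (lt A f) (fun i hi j hj => h.dj i (mem_sdiff.1 hi).1 j (mem_sdiff.1 hj).1)
      (fun j hj => lt_on h he j (mem_sdiff.1 hj).1), norm_prod]
    refine mul_le_mul_of_nonneg_right ?_ (prod_nonneg fun _ _ => norm_nonneg _)
    rw [← avg_prod_one h he hT]
    exact (norm_av_le _).trans (avg_mono fun x => hF_norm h hd hT x)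
  calc ‖∑ T ∈ J.powerset, av fun x => hF J I A Φ f T x * ∏ j ∈ J \ T, lt A f j x‖
      ≤ ∑ T ∈ J.powerset, (∏ j ∈ T, avg fun x => one (A j x)) * ∏ j ∈ J \ T, ‖av (lt A f j)‖ :=
        (norm_sum_le _ _).trans (sum_le_sum h2)
    _ = ∏ j ∈ J, ((avg fun x => one (A j x)) + ‖av (lt A f j)‖) := by
        rw [prod_add]
    _ ≤ ∏ j ∈ J, Real.exp (2 * (avg fun x => one (A j x)) - (1 - ‖av (f j)‖)) := by
        refine prod_le_prod (fun j _ => add_nonneg (mass_nonneg _) (norm_nonneg _)) fun j hj => ?_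
        have h3 := (lt_av (A := A) h hj).1
        have h4 := Real.add_one_le_exp (2 * (avg fun x => one (A j x)) - (1 - ‖av (f j)‖))
        linarith
    _ = Real.exp (∑ j ∈ J, (2 * (avg fun x => one (A j x)) - (1 - ‖av (f j)‖))) :=
        (Real.exp_sum _ _).symm
    _ ≤ _ := by
        rw [Real.exp_le_exp, sum_sub_distrib, ← mul_sum]
        linarith [he.mass]

/-! ## Products with shifts -/

theorem ev_dr (hA : Ev K J I A) (W : Cube n) :
    Ev (2 * K) J I (fun j y => A j y ∨ A j (xo y W)) where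
  on := fun j hj x y h => by
    have h1 : ∀ i ∈ I j, xo x W i = xo y W i := fun i hi => by
      unfold xo
      rw [h i hi]
    simp only [hA.on j hj x y h, hA.on j hj _ _ h1]
  mass := by
    have h1 : ∀ j ∈ J, (avg fun y => one (A j y ∨ A j (xo y W))) ≤
        2 * avg fun x => one (A j x) := by
      intro j _
      have h2 : (avg fun y => one (A j (xo y W))) = avg fun x => one (A j x) :=
        avg_xo (fun y => one (A j y)) W
      have h3 : (avg fun y => one (A j y ∨ A j (xo y W))) ≤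
          avg fun y => one (A j y) + one (A j (xo y W)) := by
        refine avg_mono fun y => ?_
        have h4 := Dnf.one_nonneg (A j y)
        have h5 := Dnf.one_nonneg (A j (xo y W))
        by_cases h6 : A j y
        · have := Dnf.one_le (A j y ∨ A j (xo y W))
          rw [Dnf.one_true h6]
          linarith
        · by_cases h7 : A j (xo y W)
          · have := Dnf.one_le (A j y ∨ A j (xo y W))
            rw [Dnf.one_true h7]
            linarith
          · rw [Dnf.one_false (not_or.2 ⟨h6, h7⟩)]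
            linarith
      rw [avg_add, h2] at h3
      linarith
    refine (sum_le_sum h1).trans ?_
    rw [← mul_sum]
    linarith [hA.mass]

theorem dp_dr (hΦ : Dp J I A Φ) (W : Cube n) :
    Dp J I (fun j y => A j y ∨ A j (xo y W)) (dr Φ W) where
  le := fun x => by
    unfold dr
    rw [norm_mul, Complex.norm_conj]
    exact mul_le_one₀ (hΦ.le _) (norm_nonneg _) (hΦ.le _)
  dep := fun x y h => by
    unfold dr
    rw [hΦ.dep x y fun j hj h1 i hi => h j hj (h1.imp Or.inl Or.inl) i hi,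
      hΦ.dep (xo x W) (xo y W) fun j hj h1 i hi => by
        have := h j hj (h1.imp Or.inr Or.inr) i hi
        unfold xo
        rw [this]]

theorem dr_mul (W y : Cube n) :
    dr (fun x => Φ x * ∏ j ∈ J, f j x) W y = dr Φ W y * ∏ j ∈ J, dr (f j) W y := by
  unfold dr
  rw [map_mul, map_prod, prod_mul_distrib]
  ring

end Pool.Agent.MP_ca1109_lc.Ph
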